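import Pool.Agent.Helper61.GT.Goals

/-!
# Project GT (MP_552bae_an): packet G_ULT

From forms which attain their bound on a pair of unitaries to all forms, by an ultrapower.
-/

set_option autoImplicit false

namespace Pool.Agent.Helper50.GT

open Filter Topology Pool.Agent.Helper61.GT
open scoped BoundedContinuousFunction

universe u v

section lim

/-- The limit of a sequence of complex numbers along a nonprincipal ultrafilter. -/
noncomputable def ul (s : ℕ → ℂ) : ℂ := limUnder (hyperfilter ℕ : Filter ℕ) s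

theorem ul_tendsto {s : ℕ → ℂ} {C : ℝ} (h : ∀ n, ‖s n‖ ≤ C) :
    Tendsto s (hyperfilter ℕ : Filter ℕ) (𝓝 (ul s)) := by
  refine tendsto_nhds_limUnder ?_
  have hc : IsCompact (Metric.closedBall (0 : ℂ) C) := isCompact_closedBall 0 C
  have h1 : ((hyperfilter ℕ).map s : Filter ℂ) ≤ 𝓟 (Metric.closedBall (0 : ℂ) C) := by
    rw [le_principal_iff]
    refine Filter.mem_map.2 (Filter.univ_mem' fun n => ?_)
    show s n ∈ Metric.closedBall 0 C
    rw [mem_closedBall_zero_iff]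
    exact h n
  obtain ⟨x, -, hx⟩ := hc.ultrafilter_le_nhds _ h1
  exact ⟨x, hx⟩

theorem ul_eq {s : ℕ → ℂ} {c : ℂ} (h : Tendsto s (hyperfilter ℕ : Filter ℕ) (𝓝 c)) : ul s = c :=
  h.limUnder_eq

theorem ul_norm_le {s : ℕ → ℂ} {C : ℝ} (h : ∀ n, ‖s n‖ ≤ C) : ‖ul s‖ ≤ C :=
  le_of_tendsto (ul_tendsto h).norm (Eventually.of_forall h)

theorem ul_add {s t : ℕ → ℂ} {C D : ℝ} (hs : ∀ n, ‖s n‖ ≤ C) (ht : ∀ n, ‖t n‖ ≤ D) :
    ul (fun n => s n + t n) = ul s + ul t :=
  ul_eq ((ul_tendsto hs).add (ul_tendsto ht))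

theorem ul_smul {s : ℕ → ℂ} {C : ℝ} (hs : ∀ n, ‖s n‖ ≤ C) (c : ℂ) :
    ul (fun n => c * s n) = c * ul s :=
  ul_eq ((ul_tendsto hs).const_mul c)

theorem ul_const (c : ℂ) : ul (fun _ => c) = c := ul_eq tendsto_const_nhds

end lim

section form

variable {A : Type u} {B : Type v} [CStarAlgebra A] [CStarAlgebra B] (φ : A →L[ℂ] B →L[ℂ] ℂ)

theorem bd (x : ℕ →ᵇ A) (y : ℕ →ᵇ B) (n : ℕ) : ‖φ (x n) (y n)‖ ≤ ‖φ‖ * ‖x‖ * ‖y‖ := by
  refine (φ.le_opNorm₂ (x n) (y n)).trans ?_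
  gcongr
  · exact x.norm_coe_le_norm n
  · exact y.norm_coe_le_norm n

/-- The form on bounded sequences. -/
noncomputable def uf : (ℕ →ᵇ A) →L[ℂ] (ℕ →ᵇ B) →L[ℂ] ℂ :=
  LinearMap.mkContinuous₂ (LinearMap.mk₂ ℂ (fun x y => ul fun n => φ (x n) (y n))
    (fun x x' y => by
      rw [← ul_add (bd φ x y) (bd φ x' y)]
      congr 1; funext n
      simp)
    (fun c x y => by
      rw [smul_eq_mul, ← ul_smul (bd φ x y)]
      congr 1; funext n
      simp)
    (fun x y y' => by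
      rw [← ul_add (bd φ x y) (bd φ x y')]
      congr 1; funext n
      simp)
    (fun c x y => by
      rw [smul_eq_mul, ← ul_smul (bd φ x y)]
      congr 1; funext n
      simp)) ‖φ‖ (fun x y => ul_norm_le (bd φ x y))

theorem uf_apply (x : ℕ →ᵇ A) (y : ℕ →ᵇ B) : uf φ x y = ul fun n => φ (x n) (y n) := rfl

theorem unit_apply {x : ℕ →ᵇ A} (hx : x ∈ unitary (ℕ →ᵇ A)) (n : ℕ) : x n ∈ unitary A := by
  rw [Unitary.mem_iff] at hx ⊢
  exact ⟨congrArg (fun f : ℕ →ᵇ A => f n) hx.1, congrArg (fun f : ℕ →ᵇ A => f n) hx.2⟩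

theorem uf_UB (h : UB φ) : UB (uf φ) := by
  intro x hx y hy
  rw [uf_apply]
  exact ul_norm_le fun n => h _ (unit_apply hx n) _ (unit_apply hy n)

theorem norm_unit_le {x : A} (hx : x ∈ unitary A) : ‖x‖ ≤ 1 := by
  rcases subsingleton_or_nontrivial A with h | h
  · rw [Subsingleton.elim x 0, norm_zero]; exact zero_le_one
  · exact (CStarRing.norm_of_mem_unitary hx).le

/-- A sequence of unitaries. -/
noncomputable def sqn (x : ℕ → A) (hx : ∀ n, x n ∈ unitary A) : ℕ →ᵇ A :=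
  BoundedContinuousFunction.ofNormedAddCommGroupDiscrete x 1 fun n => norm_unit_le (hx n)

theorem sqn_apply (x : ℕ → A) (hx : ∀ n, x n ∈ unitary A) (n : ℕ) : sqn x hx n = x n := rfl

theorem sqn_unit (x : ℕ → A) (hx : ∀ n, x n ∈ unitary A) : sqn x hx ∈ unitary (ℕ →ᵇ A) := by
  rw [Unitary.mem_iff]
  refine ⟨?_, ?_⟩
  · ext n
    exact ((Unitary.mem_iff.1 (hx n)).1 : _)
  · ext n
    exact ((Unitary.mem_iff.1 (hx n)).2 : _)

/-- Forms with bound one which is almost attained. -/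
theorem bound_one (hA : ∀ (A : Type u) (B : Type v) [CStarAlgebra A] [CStarAlgebra B]
    (Φ : A →L[ℂ] B →L[ℂ] ℂ), UB Φ →
    ∀ a ∈ unitary A, ∀ b ∈ unitary B, Φ a b = 1 →
    ∀ (n : ℕ) (x : Fin n → A) (y : Fin n → B), (∀ i, IsSelfAdjoint (x i)) → (∀ i, ‖y i‖ ≤ 1) →
      ∑ i, ‖Φ (x i) (y i)‖ ^ 2 ≤ 32 * 142 ^ 2 * ‖∑ i, x i * x i‖) (h : UB φ)
    (p : ℕ → A) (hp : ∀ n, p n ∈ unitary A) (q : ℕ → B) (hq : ∀ n, q n ∈ unitary B)
    (hl : Tendsto (fun n => φ (p n) (q n)) atTop (𝓝 1)) (n : ℕ) (x : Fin n → A) (y : Fin n → B)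
    (hx : ∀ i, IsSelfAdjoint (x i)) (hy : ∀ i, ‖y i‖ ≤ 1) :
    ∑ i, ‖φ (x i) (y i)‖ ^ 2 ≤ 32 * 142 ^ 2 * ‖∑ i, x i * x i‖ := by
  have h1 : uf φ (sqn p hp) (sqn q hq) = 1 := by
    rw [uf_apply]
    exact ul_eq (hl.mono_left Nat.hyperfilter_le_atTop)
  have h2 := hA (ℕ →ᵇ A) (ℕ →ᵇ B) (uf φ) (uf_UB φ h) _ (sqn_unit p hp) _ (sqn_unit q hq) h1 n
    (fun i => BoundedContinuousFunction.const ℕ (x i))
    (fun i => BoundedContinuousFunction.const ℕ (y i))
    (fun i => by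
      rw [isSelfAdjoint_iff]
      ext m
      exact hx i)
    (fun i => (BoundedContinuousFunction.norm_const_le _).trans (hy i))
  have h3 : ∀ i, uf φ (BoundedContinuousFunction.const ℕ (x i))
      (BoundedContinuousFunction.const ℕ (y i)) = φ (x i) (y i) := fun i =>
    ul_const (φ (x i) (y i))
  have h4 : ∑ i, BoundedContinuousFunction.const ℕ (x i) * BoundedContinuousFunction.const ℕ (x i) =
      BoundedContinuousFunction.const ℕ (∑ i, x i * x i) := by
    ext m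
    simp
  simp only [h3] at h2
  rw [h4] at h2
  refine h2.trans ?_
  gcongr
  exact BoundedContinuousFunction.norm_const_le _

end form

theorem gULT : G_ULT.{u, v} := by
  intro _ _ hA A B _ _ φ
  by_cases h0 : ∀ x ∈ unitary A, ∀ y ∈ unitary B, φ x y = 0
  · have h1 : ∀ x y, φ x y = 0 := by
      intro x y
      have hx : x ∈ Submodule.span ℂ (unitary A : Set A) := by
        rw [CStarAlgebra.span_unitary]; trivial
      have hy : y ∈ Submodule.span ℂ (unitary B : Set B) := by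
        rw [CStarAlgebra.span_unitary]; trivial
      induction hx using Submodule.span_induction with
      | mem x hx =>
        induction hy using Submodule.span_induction with
        | mem y hy => exact h0 x hx y hy
        | zero => rw [map_zero]
        | add a b _ _ ha hb => rw [map_add, ha, hb, add_zero]
        | smul c a _ ha => rw [map_smul, ha, smul_zero]
      | zero => rw [map_zero]; rfl
      | add a b _ _ ha hb => rw [map_add, _root_.add_apply, ha, hb, add_zero]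
      | smul c a _ ha => rw [map_smul, _root_.smul_apply, ha, smul_zero]
    refine ⟨0, fun n x y _ _ => ?_⟩
    simp [h1]
  · push Not at h0
    obtain ⟨x₀, hx₀, y₀, hy₀, hne⟩ := h0
    let S : Set ℝ := {r | ∃ x ∈ unitary A, ∃ y ∈ unitary B, r = ‖φ x y‖}
    have hbd : BddAbove S := by
      refine ⟨‖φ‖, ?_⟩
      rintro _ ⟨x, hx, y, hy, rfl⟩
      refine (φ.le_opNorm₂ x y).trans ?_
      have h1 := norm_unit_le hx
      have h2 := norm_unit_le hy
      calc ‖φ‖ * ‖x‖ * ‖y‖ ≤ ‖φ‖ * 1 * 1 := by gcongr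
        _ = ‖φ‖ := by ring
    have hmem : ‖φ x₀ y₀‖ ∈ S := ⟨x₀, hx₀, y₀, hy₀, rfl⟩
    set M : ℝ := sSup S with hM
    have hMpos : 0 < M := lt_of_lt_of_le (norm_pos_iff.2 hne) (le_csSup hbd hmem)
    set ψ : A →L[ℂ] B →L[ℂ] ℂ := ((M : ℂ)⁻¹) • φ with hψ
    have hψa : ∀ x y, ψ x y = (M : ℂ)⁻¹ * φ x y := fun x y => rfl
    have hψn : ∀ x y, ‖ψ x y‖ = M⁻¹ * ‖φ x y‖ := by
      intro x y
      rw [hψa, norm_mul, norm_inv, Complex.norm_real, Real.norm_of_nonneg hMpos.le]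
    have hUB : UB ψ := by
      intro x hx y hy
      rw [hψn, inv_mul_le_iff₀ hMpos, mul_one]
      exact le_csSup hbd ⟨x, hx, y, hy, rfl⟩
    have hseq : ∀ n : ℕ, ∃ (x : A) (y : B), x ∈ unitary A ∧ y ∈ unitary B ∧
        (1 - 1 / ((n : ℝ) + 1)) < ‖ψ x y‖ := by
      intro n
      have h1 : M * (1 - 1 / ((n : ℝ) + 1)) < M := by
        have : 0 < 1 / ((n : ℝ) + 1) := by positivity
        nlinarith
      obtain ⟨_, ⟨x, hx, y, hy, rfl⟩, hlt⟩ := exists_lt_of_lt_csSup ⟨_, hmem⟩ h1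
      refine ⟨x, y, hx, hy, ?_⟩
      rw [hψn, lt_inv_mul_iff₀ hMpos]
      exact hlt
    choose p q hp hq hlt using hseq
    -- adjust the phase
    have hph : ∀ n, ∃ q' ∈ unitary B, ψ (p n) q' = (‖ψ (p n) (q n)‖ : ℂ) := by
      intro n
      by_cases hz : ψ (p n) (q n) = 0
      · exact ⟨q n, hq n, by rw [hz, norm_zero, Complex.ofReal_zero]⟩
      · set z := ψ (p n) (q n) with hzd
        have hz' : (‖z‖ : ℂ) ≠ 0 := by
          rw [Ne, Complex.ofReal_eq_zero, norm_eq_zero]; exact hz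
        have hzz : (starRingEnd ℂ) z * z = (‖z‖ : ℂ) ^ 2 := by
          rw [mul_comm, Complex.mul_conj']
        refine ⟨((starRingEnd ℂ) z / ‖z‖) • q n, ?_, ?_⟩
        · have hw : star ((starRingEnd ℂ) z / (‖z‖ : ℂ)) * ((starRingEnd ℂ) z / (‖z‖ : ℂ)) = 1 := by
            rw [star_div₀]
            simp only [RCLike.star_def, Complex.conj_conj, Complex.conj_ofReal]
            rw [div_mul_div_comm, mul_comm z, hzz, ← sq, div_self (pow_ne_zero 2 hz')]
          obtain ⟨e1, e2⟩ := Unitary.mem_iff.1 (hq n)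
          rw [Unitary.mem_iff, star_smul, smul_mul_smul_comm, smul_mul_smul_comm, hw, e1, e2,
            mul_comm, hw, one_smul]
          exact ⟨rfl, rfl⟩
        · rw [map_smul, ← hzd, smul_eq_mul, div_mul_eq_mul_div, hzz, sq,
            mul_div_assoc, div_self hz', mul_one]
    choose q' hq' hqe using hph
    have hlim : Tendsto (fun n => ψ (p n) (q' n)) atTop (𝓝 1) := by
      have h1 : Tendsto (fun n => ‖ψ (p n) (q n)‖) atTop (𝓝 1) := by
        have h2 : Tendsto (fun n : ℕ => 1 - 1 / ((n : ℝ) + 1)) atTop (𝓝 1) := by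
          have := (tendsto_one_div_add_atTop_nhds_zero_nat (𝕜 := ℝ)).const_sub 1
          rwa [sub_zero] at this
        refine tendsto_of_tendsto_of_tendsto_of_le_of_le h2 tendsto_const_nhds
          (fun n => (hlt n).le) (fun n => hUB _ (hp n) _ (hq n))
      have h3 : Tendsto (fun n => ((‖ψ (p n) (q n)‖ : ℝ) : ℂ)) atTop (𝓝 ((1 : ℝ) : ℂ)) :=
        (Complex.continuous_ofReal.tendsto 1).comp h1
      rw [Complex.ofReal_one] at h3
      refine h3.congr fun n => (hqe n).symm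
    refine ⟨M ^ 2 * (32 * 142 ^ 2), fun n x y hx hy => ?_⟩
    have h5 := bound_one ψ hA hUB p hp q' hq' hlim n x y hx hy
    have h6 : ∀ i, ‖φ (x i) (y i)‖ ^ 2 = M ^ 2 * ‖ψ (x i) (y i)‖ ^ 2 := by
      intro i
      rw [hψn, mul_pow, ← mul_assoc, inv_pow, mul_inv_cancel₀ (pow_ne_zero 2 hMpos.ne'), one_mul]
    simp only [h6]
    rw [← Finset.mul_sum, mul_assoc]
    exact mul_le_mul_of_nonneg_left h5 (by positivity)

end Pool.Agent.Helper50.GT
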